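import Mathlib

set_option autoImplicit false

namespace Pool.Agent.Results.MP_ef4983_al.DiscriminatingCriterion

universe u v

open scoped Pointwise

/-- `G` discriminates `H`: for every finite set of non-identity elements of `H` there is a
homomorphism `H → G` which sends none of them to the identity. -/
def Discriminates (G : Type u) (H : Type v) [Group G] [Group H] : Prop :=
  ∀ S : Finset H, (∀ h ∈ S, h ≠ 1) → ∃ φ : H →* G, ∀ h ∈ S, φ h ≠ 1

/-- `G` is discriminating: it discriminates its direct square. -/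
def IsDiscriminating (G : Type u) [Group G] : Prop :=
  Discriminates G (G × G)

/-- A subgroup is fully invariant if every endomorphism of the group maps it into itself. -/
def IsFullyInvariant {A : Type u} [Group A] (W : Subgroup A) : Prop :=
  ∀ φ : A →* A, ∀ w ∈ W, φ w ∈ W

/-- Evaluation at a point, a homomorphism because the target is abelian. -/
def evalHom {H : Type v} {A : Type u} [Group H] [CommGroup A] (s : H) : (H →* A) →* A where
  toFun φ := φ s
  map_one' := rfl
  map_mul' _ _ := rfl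

lemma evalHom_apply {H : Type v} {A : Type u} [Group H] [CommGroup A] (s : H) (φ : H →* A) :
    evalHom s φ = φ s := rfl

lemma finite_range_evalHom {H : Type v} {A : Type u} [Group H] [CommGroup A] (s : H)
    (h : (evalHom (A := A) s).ker.FiniteIndex) : Finite (evalHom (A := A) s).range := by
  have h1 : Finite ((H →* A) ⧸ (evalHom (A := A) s).ker) :=
    Subgroup.finite_quotient_of_finiteIndex
  exact Finite.of_equiv _ (QuotientGroup.quotientKerEquivRange (evalHom (A := A) s)).toEquiv

/-- If there is no nontrivial finite fully invariant subgroup then the group is discriminating. -/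
lemma discriminating_of_no_finite {A : Type u} [CommGroup A]
    (hA : ¬ ∃ W : Subgroup A, W ≠ ⊥ ∧ Finite W ∧ IsFullyInvariant W) :
    IsDiscriminating A := by
  classical
  intro S hS
  by_contra hcon
  push Not at hcon
  have hcov : ⋃ s ∈ S, (1 : (A × A) →* A) •
      (((evalHom (A := A) s).ker : Subgroup ((A × A) →* A)) : Set ((A × A) →* A)) = Set.univ := by
    apply Set.eq_univ_of_forall
    intro φ
    obtain ⟨s, hs, hφ⟩ := hcon φ
    simp only [one_smul, Set.mem_iUnion]
    exact ⟨s, hs, by simpa [MonoidHom.mem_ker, evalHom_apply] using hφ⟩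
  obtain ⟨s, hs, hfi⟩ := Subgroup.exists_finiteIndex_of_leftCoset_cover hcov
  apply hA
  refine ⟨(evalHom (A := A) s).range, ?_, finite_range_evalHom s hfi, ?_⟩
  · intro hbot
    have hs1 := hS s hs
    have hfst : s.1 ∈ (evalHom (A := A) s).range := ⟨MonoidHom.fst A A, rfl⟩
    have hsnd : s.2 ∈ (evalHom (A := A) s).range := ⟨MonoidHom.snd A A, rfl⟩
    rw [hbot, Subgroup.mem_bot] at hfst hsnd
    exact hs1 (Prod.ext hfst hsnd)
  · rintro ψ w ⟨φ, rfl⟩
    exact ⟨ψ.comp φ, rfl⟩

/-- A discriminating group has no nontrivial finite fully invariant subgroup. -/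
lemma no_finite_of_discriminating {A : Type u} [CommGroup A] (hA : IsDiscriminating A) :
    ¬ ∃ W : Subgroup A, W ≠ ⊥ ∧ Finite W ∧ IsFullyInvariant W := by
  classical
  rintro ⟨W, hne, hfin, hinv⟩
  have : Fintype W := Fintype.ofFinite W
  let S : Finset (A × A) :=
    ((Finset.univ : Finset (W × W)).image (fun w => ((w.1 : A), (w.2 : A)))).erase 1
  obtain ⟨φ, hφ⟩ := hA S (by
    intro h hh
    exact (Finset.mem_erase.mp hh).1)
  let φ1 : A →* A := φ.comp (MonoidHom.inl A A)
  let φ2 : A →* A := φ.comp (MonoidHom.inr A A)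
  have hφ12 : ∀ a b : A, φ (a, b) = φ1 a * φ2 b := by
    intro a b
    change φ (a, b) = φ (a, 1) * φ (1, b)
    rw [← map_mul, Prod.mk_mul_mk, mul_one, one_mul]
  let f : W × W → W := fun w => ⟨φ ((w.1 : A), (w.2 : A)), by
    rw [hφ12]
    exact W.mul_mem (hinv φ1 _ w.1.2) (hinv φ2 _ w.2.2)⟩
  have hinj : Function.Injective f := by
    intro w w' hww
    have h1 : φ ((w.1 : A), (w.2 : A)) = φ ((w'.1 : A), (w'.2 : A)) := congrArg Subtype.val hww
    by_contra hne'
    have h2 : (((w.1 * w'.1⁻¹ : W) : A), ((w.2 * w'.2⁻¹ : W) : A)) ∈ S := by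
      refine Finset.mem_erase.mpr ⟨?_, Finset.mem_image.mpr ⟨(w.1 * w'.1⁻¹, w.2 * w'.2⁻¹),
        Finset.mem_univ _, rfl⟩⟩
      intro h3
      rw [Prod.ext_iff] at h3
      simp only [Prod.fst_one, Prod.snd_one, Subgroup.coe_mul, Subgroup.coe_inv] at h3
      apply hne'
      apply Prod.ext
      · exact Subtype.ext (mul_inv_eq_one.mp h3.1)
      · exact Subtype.ext (mul_inv_eq_one.mp h3.2)
    apply hφ _ h2
    have h4 : (((w.1 * w'.1⁻¹ : W) : A), ((w.2 * w'.2⁻¹ : W) : A)) =
        ((w.1 : A), (w.2 : A)) * ((w'.1 : A), (w'.2 : A))⁻¹ := by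
      simp
    rw [h4, map_mul, map_inv, h1, mul_inv_cancel]
  have hcard : Fintype.card (W × W) ≤ Fintype.card W := Fintype.card_le_of_injective f hinj
  rw [Fintype.card_prod] at hcard
  have hpos : 0 < Fintype.card W := Fintype.card_pos
  have hle1 : Fintype.card W ≤ 1 := by
    by_contra h
    push Not at h
    nlinarith
  apply hne
  rw [Subgroup.eq_bot_iff_forall]
  intro x hx
  have := Fintype.card_le_one_iff.mp hle1 ⟨x, hx⟩ 1
  exact congrArg Subtype.val this

/-- The orbit criterion: all orbits of elements of prime order are infinite. -/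
def PrimeOrbitsInfinite (A : Type u) [CommGroup A] : Prop :=
  ∀ p : ℕ, p.Prime → ∀ a : A, a ≠ 1 → a ^ p = 1 → (Set.range (fun φ : A →* A => φ a)).Infinite

lemma no_finite_iff_orbits (A : Type u) [CommGroup A] :
    (¬ ∃ W : Subgroup A, W ≠ ⊥ ∧ Finite W ∧ IsFullyInvariant W) ↔ PrimeOrbitsInfinite A := by
  constructor
  · intro h p _ a ha _
    by_contra hfin
    rw [Set.not_infinite] at hfin
    apply h
    refine ⟨(evalHom (H := A) (A := A) a).range, ?_, ?_, ?_⟩
    · intro hbot
      have : a ∈ (evalHom (H := A) (A := A) a).range := ⟨MonoidHom.id A, rfl⟩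
      rw [hbot, Subgroup.mem_bot] at this
      exact ha this
    · exact hfin.to_subtype
    · rintro ψ w ⟨φ, rfl⟩
      exact ⟨ψ.comp φ, rfl⟩
  · rintro h ⟨W, hne, hfin, hinv⟩
    have : Nontrivial W := (Subgroup.nontrivial_iff_ne_bot W).mpr hne
    have hcard : Nat.card W ≠ 1 := (Finite.one_lt_card).ne'
    obtain ⟨p, hp, hdvd⟩ := Nat.exists_prime_and_dvd hcard
    have : Fact p.Prime := ⟨hp⟩
    obtain ⟨x, hx⟩ := exists_prime_orderOf_dvd_card' p hdvd
    have hx1 : (x : A) ≠ 1 := by
      intro hx1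
      have : x = 1 := Subtype.ext hx1
      rw [this, orderOf_one] at hx
      exact hp.one_lt.ne hx
    have hxp : (x : A) ^ p = 1 := by
      have : x ^ p = 1 := by rw [← hx]; exact pow_orderOf_eq_one x
      exact_mod_cast congrArg Subtype.val this
    apply h p hp (x : A) hx1 hxp
    apply Set.Finite.subset (s := (W : Set A)) (Set.toFinite _)
    rintro _ ⟨φ, rfl⟩
    exact hinv φ _ x.2

/-- An element of the socle of finite `p`-height `k` can be moved by an endomorphism to every
element of `p`-height at least `k` of the socle. -/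
lemma exists_endo_of_finite_height {A : Type u} [AddCommGroup A] {p k : ℕ} (hp : p.Prime)
    {a b c d : A} (hab : p ^ k • b = a)     (hna : ¬ ∃ e : A, p ^ (k + 1) • e = a) (hcd : p ^ k • d = c) (hc : p • c = 0) :
    ∃ f : A →+ A, f a = c := by
  set n : ℕ := p ^ (k + 1) with hn
  have hnpos : 0 < n := pow_pos hp.pos _
  have hnd : n • d = 0 := by rw [hn, pow_succ', mul_smul, hcd, hc]
  -- the subgroup of multiples of n
  let N : AddSubgroup A := (nsmulAddMonoidHom (α := A) n).range
  have haN : a ∉ N := by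
    rintro ⟨e, he⟩
    exact hna ⟨e, he⟩
  have hq : (QuotientAddGroup.mk' N a) ≠ 0 := by
    intro h
    exact haN ((QuotientAddGroup.eq_zero_iff a).mp h)
  obtain ⟨χ, hχ⟩ := CharacterModule.exists_character_apply_ne_zero_of_ne_zero hq
  have hkill : ∀ x : A ⧸ N, n • (χ x) = 0 := by
    intro x
    obtain ⟨y, rfl⟩ := QuotientAddGroup.mk'_surjective N x
    rw [← map_nsmul χ, ← map_nsmul (QuotientAddGroup.mk' N)]
    have : QuotientAddGroup.mk' N (n • y) = 0 := by
      rw [QuotientAddGroup.mk'_apply, QuotientAddGroup.eq_zero_iff]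
      exact ⟨y, rfl⟩
    rw [this, map_zero]
  let u0 : AddCircle (1 : ℚ) := (((1 : ℚ) / n : ℚ) : AddCircle (1 : ℚ))
  have hform : ∀ v : AddCircle (1 : ℚ), n • v = 0 → ∃ m : ℕ, v = m • u0 := by
    intro v hv
    obtain ⟨m, _, hm⟩ := (AddCircle.nsmul_eq_zero_iff hnpos).mp hv
    refine ⟨m, ?_⟩
    rw [← hm, ← AddCircle.coe_nsmul]
    congr 1
    rw [nsmul_eq_mul]
    ring
  have hu0 : n • u0 = 0 := by
    rw [← AddCircle.coe_nsmul]
    have : n • ((1 : ℚ) / n) = 1 := by
      rw [nsmul_eq_mul]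
      field_simp
    rw [this]
    exact AddCircle.coe_period 1
  have hu0' : ∀ m : ℤ, m • u0 = 0 → (n : ℤ) ∣ m := by
    intro m hm
    have hcast : (((m : ℚ) / n : ℚ) : AddCircle (1 : ℚ)) = 0 := by
      rw [← hm, ← AddCircle.coe_zsmul]
      congr 1
      rw [zsmul_eq_mul]
      ring
    obtain ⟨j, hj⟩ := (AddCircle.coe_eq_zero_iff (1 : ℚ)).mp hcast
    refine ⟨j, ?_⟩
    have hn0 : (n : ℚ) ≠ 0 := by exact_mod_cast hnpos.ne'
    rw [zsmul_eq_mul, mul_one] at hj
    have : (m : ℚ) = n * j := by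
      rw [hj]; field_simp
    exact_mod_cast this
  let χ' : A →+ AddCircle (1 : ℚ) := (χ : (A ⧸ N) →+ AddCircle (1 : ℚ)).comp (QuotientAddGroup.mk' N)
  have hχ' : χ' a ≠ 0 := hχ
  obtain ⟨m, hm⟩ := hform (χ' b) (hkill _)
  have hpm : ¬ p ∣ m := by
    rintro ⟨m', rfl⟩
    apply hχ'
    rw [← hab, map_nsmul, hm, smul_smul]
    have : p ^ k * (p * m') = m' * n := by rw [hn, pow_succ]; ring
    rw [this, mul_smul, hu0, smul_zero]
  have hcop : Nat.Coprime m n := by
    rw [hn]
    exact Nat.Coprime.pow_right _ ((Nat.Prime.coprime_iff_not_dvd hp).mpr hpm).symm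
  obtain ⟨m', hm'⟩ : ∃ m' : ℤ, (n : ℤ) ∣ (m * m' - 1) := by
    have := Nat.gcd_eq_gcd_ab m n
    rw [hcop] at this
    refine ⟨Nat.gcdA m n, -(Nat.gcdB m n), ?_⟩
    push_cast at this
    linarith
  have hmem : ∀ x : A, χ' x ∈ AddSubgroup.zmultiples u0 := by
    intro x
    obtain ⟨j, hj⟩ := hform (χ' x) (hkill _)
    rw [hj]
    exact AddSubgroup.nsmul_mem_zmultiples u0 j
  let χ'' : A →+ AddSubgroup.zmultiples u0 := χ'.codRestrict _ hmem
  let π : ℤ →+ AddSubgroup.zmultiples u0 :=
    zmultiplesHom _ ⟨u0, AddSubgroup.mem_zmultiples u0⟩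
  have hπ : ∀ j : ℤ, ((π j : AddSubgroup.zmultiples u0) : AddCircle (1 : ℚ)) = j • u0 := by
    intro j
    simp [π, zmultiplesHom_apply]
  have hπs : Function.Surjective π := by
    rintro ⟨x, hx⟩
    obtain ⟨j, rfl⟩ := AddSubgroup.mem_zmultiples_iff.mp hx
    exact ⟨j, Subtype.ext (hπ j)⟩
  let g0 : ℤ →+ A := zmultiplesHom A (m' • d)
  have hker : π.ker ≤ g0.ker := by
    intro j hj
    rw [AddMonoidHom.mem_ker] at hj ⊢
    have h1 : j • u0 = 0 := by rw [← hπ, hj]; rfl
    obtain ⟨i, rfl⟩ := hu0' j h1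
    simp only [g0, zmultiplesHom_apply]
    rw [mul_comm, mul_smul, smul_comm (n : ℤ) m' d, natCast_zsmul, hnd, smul_zero, smul_zero]
  let g : AddSubgroup.zmultiples u0 →+ A := π.liftOfSurjective hπs ⟨g0, hker⟩
  have hg : ∀ j : ℤ, g (π j) = g0 j := fun j =>
    AddMonoidHom.liftOfRightInverse_comp_apply π _ _ ⟨g0, hker⟩ j
  refine ⟨g.comp χ'', ?_⟩
  have hb : χ'' b = π m := by
    apply Subtype.ext
    rw [hπ]
    change χ' b = _
    rw [hm, natCast_zsmul]
  have hgb : g (χ'' b) = d := by
    rw [hb, hg]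
    simp only [g0, zmultiplesHom_apply]
    obtain ⟨i, hi⟩ := hm'
    have : (m : ℤ) * m' = n * i + 1 := by linarith
    rw [smul_smul, this, add_smul, one_smul, mul_comm, mul_smul, natCast_zsmul, hnd, smul_zero,
      zero_add]
  calc (g.comp χ'') a = g (χ'' (p ^ k • b)) := by rw [hab]; rfl
    _ = p ^ k • g (χ'' b) := by rw [map_nsmul, map_nsmul]
    _ = c := by rw [hgb, hcd]

/-- Multiplicative form of the previous lemma. -/
lemma exists_endo_mul {A : Type u} [CommGroup A] {p k : ℕ} (hp : p.Prime)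
    {a b c d : A} (hab : b ^ p ^ k = a)
    (hna : ¬ ∃ e : A, e ^ p ^ (k + 1) = a) (hcd : d ^ p ^ k = c) (hc : c ^ p = 1) :
    ∃ f : A →* A, f a = c := by
  obtain ⟨f, hf⟩ := exists_endo_of_finite_height (A := Additive A) (k := k) hp
    (a := Additive.ofMul a) (b := Additive.ofMul b) (c := Additive.ofMul c) (d := Additive.ofMul d)
    (by rw [← ofMul_pow, hab])
    (by
      rintro ⟨e, he⟩
      apply hna
      refine ⟨e.toMul, ?_⟩
      rw [← toMul_nsmul, he]
      rfl)
    (by rw [← ofMul_pow, hcd])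
    (by rw [← ofMul_pow, hc]; rfl)
  refine ⟨{ toFun := fun x => (f (Additive.ofMul x)).toMul, map_one' := ?_, map_mul' := ?_ }, ?_⟩
  · change (f 0).toMul = 1
    rw [map_zero]; rfl
  · intro x y
    rw [ofMul_mul, map_add, toMul_add]
  · change (f (Additive.ofMul a)).toMul = c
    rw [hf]; rfl

lemma orbits_iff_heights (A : Type u) [CommGroup A] :
    PrimeOrbitsInfinite A ↔
      ∀ p : ℕ, p.Prime →
        (∀ k : ℕ, {a : A | a ^ p = 1 ∧ ∃ b : A, b ^ p ^ k = a} = {1} ∨
          {a : A | a ^ p = 1 ∧ ∃ b : A, b ^ p ^ k = a}.Infinite) ∧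
        (∀ a : A, a ≠ 1 → a ^ p = 1 → (∀ k : ℕ, ∃ b : A, b ^ p ^ k = a) →
          (Set.range (fun φ : A →* A => φ a)).Infinite) := by
  constructor
  · intro h p hp
    refine ⟨?_, fun a ha hap _ => h p hp a ha hap⟩
    intro k
    by_cases hinf : {a : A | a ^ p = 1 ∧ ∃ b : A, b ^ p ^ k = a}.Infinite
    · exact Or.inr hinf
    · left
      rw [Set.not_infinite] at hinf
      apply Set.eq_singleton_iff_unique_mem.mpr
      refine ⟨⟨one_pow p, 1, one_pow _⟩, ?_⟩
      rintro a ⟨hap, b, hb⟩
      by_contra ha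
      apply h p hp a ha hap
      apply hinf.subset
      rintro _ ⟨φ, rfl⟩
      refine ⟨?_, φ b, ?_⟩
      · change (φ a) ^ p = 1
        rw [← map_pow, hap, map_one]
      · change (φ b) ^ p ^ k = φ a
        rw [← map_pow, hb]
  · intro h p hp a ha hap
    obtain ⟨h1, h2⟩ := h p hp
    by_cases hall : ∀ k : ℕ, ∃ b : A, b ^ p ^ k = a
    · exact h2 a ha hap hall
    · -- the height of `a` is finite
      push Not at hall
      classical
      have hex : ∃ k : ℕ, ∀ b : A, b ^ p ^ k ≠ a := hall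
      have hk0 : Nat.find hex ≠ 0 := by
        intro h0
        have := Nat.find_spec hex
        rw [h0] at this
        exact this a (by rw [pow_zero, pow_one])
      obtain ⟨k, hk⟩ := Nat.exists_eq_succ_of_ne_zero hk0
      have hspec := Nat.find_spec hex
      rw [hk] at hspec
      have hlt : k < Nat.find hex := by omega
      have hmin := Nat.find_min hex hlt
      push Not at hmin
      obtain ⟨b, hb⟩ := hmin
      rcases h1 k with h3 | h3
      · exfalso
        have : a ∈ {a : A | a ^ p = 1 ∧ ∃ b : A, b ^ p ^ k = a} := ⟨hap, b, hb⟩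
        rw [h3] at this
        exact ha this
      · apply h3.mono
        rintro c ⟨hcp, d, hd⟩
        obtain ⟨f, hf⟩ := exists_endo_mul (k := k) hp hb
          (by rintro ⟨e, he⟩; exact hspec e he) hd hcp
        exact ⟨f, hf⟩

/-- **Characterisation of abelian discriminating groups.**  For an arbitrary abelian group `A`
(written multiplicatively) the following are equivalent:
* `A` is discriminating;
* `A` has no nontrivial finite fully invariant subgroup;
* for every prime `p`, each of the socles `(p^k A)[p]` is trivial or infinite, and every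
  nontrivial element of order `p` and of infinite `p`-height has infinitely many images under
  endomorphisms of `A`. -/
theorem result (A : Type u) [CommGroup A] :
    (IsDiscriminating A ↔
      ¬ ∃ W : Subgroup A, W ≠ ⊥ ∧ Finite W ∧ IsFullyInvariant W) ∧
    (IsDiscriminating A ↔
      ∀ p : ℕ, p.Prime →
        (∀ k : ℕ, {a : A | a ^ p = 1 ∧ ∃ b : A, b ^ p ^ k = a} = {1} ∨
          {a : A | a ^ p = 1 ∧ ∃ b : A, b ^ p ^ k = a}.Infinite) ∧
        (∀ a : A, a ≠ 1 → a ^ p = 1 → (∀ k : ℕ, ∃ b : A, b ^ p ^ k = a) →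
          (Set.range (fun φ : A →* A => φ a)).Infinite)) := by
  have h1 : IsDiscriminating A ↔
      ¬ ∃ W : Subgroup A, W ≠ ⊥ ∧ Finite W ∧ IsFullyInvariant W :=
    ⟨no_finite_of_discriminating, discriminating_of_no_finite⟩
  exact ⟨h1, h1.trans ((no_finite_iff_orbits A).trans (orbits_iff_heights A))⟩

end Pool.Agent.Results.MP_ef4983_al.DiscriminatingCriterion
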